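import Pool.Agent.K4H44.BLT.Main

/-!
# The nonsymmetric Balian-Low theorem for symplectic lattices
-/

set_option autoImplicit false

noncomputable section

open MeasureTheory Matrix
open scoped ENNReal Real

namespace Pool.Agent.Results.MP_bb0b0f_an.NonsymmetricBL

/-- The space `ℝ^l` with its Euclidean structure. -/
abbrev RR (l : ℕ) : Type := EuclideanSpace ℝ (Fin l)

/-- Lebesgue measure on `ℝ^l`. -/
def vol (l : ℕ) : Measure (RR l) := volume

/-- The Hilbert space `L²(ℝ^l)`. -/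
def L2 (l : ℕ) : Type := Lp ℂ 2 (vol l)

/-- The norm of `L²(ℝ^l)`. -/
instance (l : ℕ) : NormedAddCommGroup (L2 l) := Lp.instNormedAddCommGroup

/-- The inner product of `L²(ℝ^l)`. -/
instance (l : ℕ) : InnerProductSpace ℂ (L2 l) := MeasureTheory.L2.innerProductSpace

/-- The function represented by an element of `L²(ℝ^l)`. -/
def fn {l : ℕ} (g : L2 l) : RR l → ℂ := (Subtype.val g : RR l →ₘ[vol l] ℂ)

/-- The Fourier transform on `L²(ℝ^l)`. -/
def four {l : ℕ} (g : L2 l) : L2 l :=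
  @FourierTransform.fourier (L2 l) (L2 l) (Lp.instFourierTransform (E := RR l) (F := ℂ)) g

/-- Phase space `ℝ^{2l}`, a point being a pair `(m, n)` of vectors of `ℝ^l`. -/
abbrev Phase (l : ℕ) : Type := Fin l ⊕ Fin l → ℝ

/-- The standard symplectic matrix with rows `(0, I)` and `(-I, 0)`. -/
def J (l : ℕ) : Matrix (Fin l ⊕ Fin l) (Fin l ⊕ Fin l) ℝ := Matrix.fromBlocks 0 1 (-1) 0

/-- A real `2l × 2l` matrix is symplectic. -/
def Sympl {l : ℕ} (M : Matrix (Fin l ⊕ Fin l) (Fin l ⊕ Fin l) ℝ) : Prop := Mᵀ * J l * M = J l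

/-- The set `M ℤ^{2l}`. -/
def latt {l : ℕ} (M : Matrix (Fin l ⊕ Fin l) (Fin l ⊕ Fin l) ℝ) : Set (Phase l) :=
  Set.range fun n : Fin l ⊕ Fin l → ℤ => M *ᵥ fun j => (n j : ℝ)

/-- The character `exp (2 π i n · x)` for `z = (m, n)`. -/
def chr {l : ℕ} (z : Phase l) (x : RR l) : ℂ :=
  Complex.exp (2 * π * Complex.I * ∑ j, (z (Sum.inr j) : ℂ) * (x j : ℂ))

/-- The translation `x - m` for `z = (m, n)`. -/
def trs {l : ℕ} (z : Phase l) (x : RR l) : RR l := x - WithLp.toLp 2 fun j => z (Sum.inl j)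

/-- A family of vectors of a Hilbert space is a Riesz basis if it is the image of an orthonormal
basis under a bounded invertible operator. -/
def IsRiesz {ι H : Type} [NormedAddCommGroup H] [InnerProductSpace ℂ H] (v : ι → H) : Prop :=
  ∃ (b : HilbertBasis ι ℂ H) (A : H ≃L[ℂ] H), ∀ i, v i = A (b i)

/-- The Gabor system of `g` over `S`, indexed by the points `z = (m, n)` of `S`, is a Riesz
basis. -/
def GaborRiesz {l : ℕ} (g : L2 l) (S : Set (Phase l)) : Prop :=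
  ∃ v : S → L2 l, (∀ z : S, fn (v z) =ᵐ[vol l] fun x => chr z.1 x * fn g (trs z.1 x)) ∧ IsRiesz v

/-- The moment `∫ |x_k|^p |g(x)|^2 dx`. -/
def moment {l : ℕ} (g : L2 l) (k : Fin l) (p : ℝ) : ℝ≥0∞ :=
  ∫⁻ x : RR l, ENNReal.ofReal (|x k| ^ p) * ‖fn g x‖ₑ ^ 2 ∂vol l

/-- The function `g` vanishes almost everywhere outside a compact set. -/
def CompactSupp {l : ℕ} (g : L2 l) : Prop :=
  ∃ K : Set (RR l), IsCompact K ∧ ∀ᵐ x ∂vol l, x ∉ K → fn g x = 0

theorem isRiesz_of {l : ℕ} {g : L2 l} {S : Set (Phase l)} (hg : GaborRiesz g S) :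
    K4H44.BLT.IsRiesz fun z : S =>
      K4H44.BLT.tf (K4H44.BLT.ft (z : Fin l ⊕ Fin l → ℝ)) (K4H44.BLT.sd z) g := by
  obtain ⟨v, hv, b, A, h⟩ := hg
  refine ⟨b, A, fun z => Eq.trans (b := v z) (Lp.ext ?_) (h z)⟩
  filter_upwards [hv z, K4H44.BLT.coeFn_tf (K4H44.BLT.ft z.1) (K4H44.BLT.sd z.1) g] with x h1 h2
  refine h2.trans (Eq.trans ?_ h1.symm)
  rw [K4H44.BLT.tff, PiLp.inner_apply, chr, trs]
  congr 2
  push_cast
  rw [Finset.mul_sum, Finset.mul_sum, Finset.sum_mul]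
  refine Finset.sum_congr rfl fun i _ => ?_
  simp [K4H44.BLT.sd]
  ring

theorem result (l : ℕ) (M : Matrix (Fin l ⊕ Fin l) (Fin l ⊕ Fin l) ℝ) (hM : Sympl M)
    (g : L2 l) (hg : GaborRiesz g (latt M)) (k : Fin l) :
    (∀ p q : ℝ, 1 < p → 1 / p + 1 / q = 1 → moment g k p = ∞ ∨ moment (four g) k q = ∞) ∧
    (CompactSupp g → moment (four g) k 1 = ∞) ∧
    (CompactSupp (four g) → moment g k 1 = ∞) := by
  obtain ⟨h1, h2, h3⟩ := K4H44.BLT.main (M := M) hM g (isRiesz_of hg) k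
  refine ⟨h1, fun h => ?_, fun h => ?_⟩
  · rw [moment]
    simp only [Real.rpow_one]
    exact h2 h
  · rw [moment]
    simp only [Real.rpow_one]
    exact h3 h

end Pool.Agent.Results.MP_bb0b0f_an.NonsymmetricBL
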